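import Pool.Agent.Helper10.Fam.Stmts

set_option autoImplicit false

/-!
# Module LSTC of the family project (MP_8410ab_nt): matrices
-/

namespace Pool.Agent.Helper10.Fam

open scoped BigOperators

theorem lstc_mv_len (R : List (List ℕ)) (v : List ℕ) : (mv R v).length = R.length := by
  induction R with
  | nil => rfl
  | cons r R ih => simp only [mv, List.length_cons, ih]

theorem lstc_mv_fn (hA : ST_LSTA) (R : List (List ℕ)) (v : List ℕ) (x : ℕ → ℝ) :
    dx (mv R v) x = bl R x (fn v) := by
  induction R generalizing x with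
  | nil => rfl
  | cons r R ih =>
    simp only [mv, dx, bl]
    rw [ih, hA.dn_eq]
    ring

theorem lstc_dn_nil (v : List ℕ) : dn [] v = 0 := by
  cases v <;> rfl

theorem lstc_mv_getD (R : List (List ℕ)) (v : List ℕ) (i : ℕ) :
    (mv R v).getD i 0 = dn (R.getD i []) v := by
  induction R generalizing i with
  | nil => simp [mv, lstc_dn_nil]
  | cons r R ih =>
    cases i with
    | zero => simp [mv]
    | succ i => simpa [mv] using ih i

theorem lstc_bl_add_left (R : List (List ℕ)) (x x' y : ℕ → ℝ) :
    bl R (fun i => x i + x' i) y = bl R x y + bl R x' y := by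
  induction R generalizing x x' with
  | nil => simp [bl]
  | cons r R ih =>
    simp only [bl]
    rw [ih (fun i => x (i + 1)) (fun i => x' (i + 1))]
    ring

theorem lstc_bl_add_right (hA : ST_LSTA) (R : List (List ℕ)) (x y y' : ℕ → ℝ) :
    bl R x (fun i => y i + y' i) = bl R x y + bl R x y' := by
  induction R generalizing x with
  | nil => simp [bl]
  | cons r R ih =>
    simp only [bl]
    rw [ih (fun i => x (i + 1)), hA.dx_add]
    ring

theorem lstc_bl_smul_left (R : List (List ℕ)) (k : ℝ) (x y : ℕ → ℝ) :
    bl R (fun i => k * x i) y = k * bl R x y := by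
  induction R generalizing x with
  | nil => simp [bl]
  | cons r R ih =>
    simp only [bl]
    rw [ih (fun i => x (i + 1))]
    ring

theorem lstc_bl_smul_right (hA : ST_LSTA) (R : List (List ℕ)) (k : ℝ) (x y : ℕ → ℝ) :
    bl R x (fun i => k * y i) = k * bl R x y := by
  induction R generalizing x with
  | nil => simp [bl]
  | cons r R ih =>
    simp only [bl]
    rw [ih (fun i => x (i + 1)), hA.dx_smul]
    ring

theorem lstc_bl_nonneg (hA : ST_LSTA) (R : List (List ℕ)) (x y : ℕ → ℝ) (hx : ∀ i, 0 ≤ x i)
    (hy : ∀ i, 0 ≤ y i) : 0 ≤ bl R x y := by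
  induction R generalizing x with
  | nil => simp [bl]
  | cons r R ih =>
    simp only [bl]
    exact add_nonneg (mul_nonneg (hx 0) (hA.dx_nonneg r y hy))
      (ih (fun i => x (i + 1)) fun i => hx (i + 1))

theorem lstc_bl_range_aux (hA : ST_LSTA) (M : ℕ) (R : List (List ℕ)) (x y : ℕ → ℝ)
    (hR : ∀ r ∈ R, r.length = M) :
    bl R x y = ∑ i ∈ Finset.range R.length, ∑ j ∈ Finset.range M,
      (ent R i j : ℝ) * x i * y j := by
  induction R generalizing x with
  | nil => simp [bl]
  | cons r R ih =>
    have h1 := ih (fun i => x (i + 1)) (fun s hs => hR s (List.mem_cons_of_mem _ hs))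
    simp only [bl]
    rw [h1, List.length_cons, Finset.sum_range_succ', hA.dx_range r M y (hR r List.mem_cons_self),
      Finset.mul_sum, add_comm]
    congr 1
    refine Finset.sum_congr rfl fun j _ => ?_
    have : (ent (r :: R) 0 j : ℝ) = fn r j := by
      simp [ent, fn]
    rw [this]
    ring

/-- LSTC -/
theorem st_LSTC (hA : ST_LSTA) : ST_LSTC where
  mv_len := lstc_mv_len
  mv_fn := lstc_mv_fn hA
  mv_getD := lstc_mv_getD
  bl_add_left := lstc_bl_add_left
  bl_add_right := lstc_bl_add_right hA
  bl_smul_left := lstc_bl_smul_left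
  bl_smul_right := lstc_bl_smul_right hA
  bl_nonneg := lstc_bl_nonneg hA
  bl_range := by
    intro R N x y hN hR
    rw [lstc_bl_range_aux hA N R x y hR, hN]

end Pool.Agent.Helper10.Fam
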